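import Pool.Agent.U222.TT.Fin

/-!
# The Tate conjecture for the products of all unrelated varieties with varieties with extreme
characters

Let `k` be an algebraic closure of a field finitely generated over `ℚ`. Let `X_0, …, X_n` be smooth
projective varieties over `k`, of any dimensions, with actions of finite abelian groups `G_i` (`GVar`),
such that the classes in the `ℓ`-adic cohomology of `X_i` which are invariant under `G_i` are algebraic.
For an embedding `τ` of `k` into `ℂ_ℓ` and a nontrivial character `χ` of `G_i`, with values in `ℂ_ℓ`,
let `m τ i χ` be an integer such that `p - q ≥ m τ i χ` for all types `(p, q)` of the eigenspace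
`H(X_i)_χ` in the Hodge-Tate decomposition of the cohomology of the variety `τ X_i` over `ℂ_ℓ`
(`IsSystem`); so these are the `(p, q)` such that `H^q(τ X_i, Ω^p)_χ` is not zero. Assume:

* for all nonempty sets `I` of indices and all nontrivial characters `χ_i`, `i ∈ I`, there is an
  embedding `τ` such that `∑_{i ∈ I} m τ i χ_i ≥ M` (`IsExtreme`), where `M ≥ 1`.

Let `Z` be **any** smooth projective variety over `k`, of any dimension, such that either

* `h^(p,q)(Z) = 0` for `|p - q| ≥ M` (`IsOfLevelLess`), for instance `dim Z < M`; or
* the `ℓ`-adic cohomology of `Z` has no nonzero subspace, stable under an open subgroup of the Galois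
  group, all of whose types `(p, q)` for some embedding `τ` satisfy `p - q ≤ -M` (`IsUnrelated`).

**Theorem.** The Tate conjecture holds for `X_0 × ⋯ × X_n`, in all codimensions. All Tate classes on
`X_0 × ⋯ × X_n × Z` are linear combinations of products of classes of algebraic cycles on
`X_0 × ⋯ × X_n` and of Tate classes on `Z`. **The Tate conjecture for `X_0 × ⋯ × X_n × Z` is equivalent
to the Tate conjecture for `Z`.**

The condition `IsUnrelated` is true for all `M ≥ 1` if, for all `i`, the irreducible constituents over
`\bar ℚ_ℓ` of the restrictions of `H^i(Z)` to open subgroups are self-dual up to the twist by `i`,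
since then the types of every stable subspace are symmetric: for instance for curves whose Jacobians
have no simple factors of type IV (Faltings), for products of abelian varieties with the largest
possible (symplectic) Galois images, and for K3 surfaces without complex multiplication.

**Examples of varieties `X_i`.** Let `X` be a smooth projective equivariant model (a toroidal
resolution) of the cyclic covering

  `w ^ N = l_1 (x) ^ a_1 ⋯ l_s (x) ^ a_s`

of the projective space of dimension `n`, branched along `s` hyperplanes in general position, with
exponents prime to `N` and `∑ a_k` divisible by `N`; the group is generated by `g : w ↦ ζ w`, for a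
primitive `N`-th root of unity `ζ` in `k`. The invariant classes are algebraic. For `j ≠ 0` modulo
`N` let `s_j` be the sum of the fractional parts of `j a_k / N`. Over the complex numbers, for
`ζ = e ^ (2πi/N)`, the eigenspace for the character `g ↦ e ^ (2πij/N)` is in degree `n`, and
`h^(p,q) = binomial (s - 1 - s_j, p) * binomial (s_j - 1, q)`, `p + q = n` (Deligne, Esnault and
Viehweg). So `p - q ≥ n + 2 - 2 s_j`. If `χ (g) = ι (ζ) ^ j` for one embedding `ι`, and `τ (ζ) = ι (ζ) ^ u`, then the
types of the eigenspace for `χ` with respect to `τ` are those with the number `j v`, `u v = 1` modulo
`N` (for a suitable normalization). So all multiples of `j` by units of `ℤ/N` occur if `τ` varies.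

* Let `N` be a prime number and `∑ a_k = N`, `0 < a_k < N`. Then `s_1 = 1`, so that for each
  nontrivial character there is an embedding `τ` with `m = n`. The varieties `X` form families with
  `n (s - n - 2)` moduli; they are Calabi-Yau varieties if `s = N = n + 2`, and varieties of
  general type with large `p_g` if `s = N > n + 2`. The theorem says: **for all such `X` of
  dimension `n` and all varieties `Z` of dimension less than `n`, or with `h^(p,q) = 0` for
  `|p - q| ≥ n`, the Tate conjecture for `X × Z` is equivalent to the one for `Z`.** For example it
  holds for `X × Z` if `n ≥ 3` and `Z` is an abelian surface, a K3 surface or any product of two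
  curves for which the Tate conjecture for divisors holds (Faltings, André, Tankeev).
* For different prime numbers `N_i` one can take products of such `X_i`, with `M` the smallest
  dimension, since there are embeddings `τ` with any given values on the `N_i`-th roots of unity. For
  `n = 1` these are the curves `y ^ N = f (x)`, `N` prime, `deg f ≤ N`, `f` without multiple roots.
* For each number `s` and dimension `n`, for large prime numbers `N` the condition `m = n` for some `τ`
  holds for almost all exponents `a_1, …, a_s`.

In the intended use `𝒱` is the class of all smooth projective varieties over `k`, and `T` is the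
`ℓ`-adic cohomology with coefficients extended to `ℂ_ℓ` (which is isomorphic to `ℂ` as a field), with the
linear actions of open subgroups of the Galois group of a finitely generated field `F`, and with the
Hodge-Tate decompositions for all embeddings of `k` into `ℂ_ℓ` which map `F` into a finite extension of
`ℚ_ℓ` (there are such embeddings with any given values on the roots of unity). The Tate classes with
coefficients in `ℂ_ℓ` are the linear combinations of the Tate classes with coefficients in `ℚ_ℓ`. The
structure `TateTheory` collects the formal properties which are used.

The theorems of the starting files about the Tate conjecture in characteristic zero are on abelian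
varieties, K3 surfaces and varieties with large Galois images. Here nothing is assumed about the
Galois representations, except for the Hodge-Tate types of the eigenspaces, which are Hodge numbers.

The proof. Let `c` be a Tate class on `X × Z`, `X = X_0 × ⋯ × X_n`, and `c_χ` its component for the
character `χ ≠ 1` of `G = ∏ G_i`. It is a Tate class, since the automorphisms in `G` are defined over a
finite extension, so it is of type `(w, w)` for all embeddings. Choose `τ` such that all types for `τ` in
`H(X)_χ` satisfy `p - q ≥ M`. The coefficients of `c_χ` in `H(Z)`, its contractions with all linear forms on
`H(X)`, form a subspace `U` which is stable under an open subgroup and whose types for `τ` satisfy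
`p - q ≤ -M`. So `U = 0` and `c_χ = 0`. It follows that `c` is invariant under `G`, so it is a sum of
products of algebraic classes on `X` and classes on `Z`, which are Tate classes.

helper222.
-/

set_option autoImplicit false

open CategoryTheory AlgebraicGeometry

universe u

namespace Pool.Agent.Results.MP_640417_ag.ExtremeCharacters

open Pool.Agent.H914 Pool.Agent.H914.VarClass Pool.Agent.H914.VarClass.Obj
  Pool.Agent.U222.HC Pool.Agent.U222.TT

/-- **The Tate conjecture for the products of varieties with extreme characters and of all
unrelated varieties.** -/
theorem result {k : Type u} [Field k] {𝒱 : VarClass k} {ops : CycleOps 𝒱} (T : TateTheory ops)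
    {n : ℕ} (A : Fam 𝒱 n) (m : T.E → ∀ i, (A i).Ch → ℤ) (M : ℤ) (hM : 0 < M)
    (h : Pool.Agent.U222.TT.IsSystem T A m) (hE : Pool.Agent.U222.TT.IsExtreme A m M) :
    TateConjecture T (product n A) ∧
    ∀ Z : 𝒱.Obj,
      Pool.Agent.U222.TT.IsOfLevelLess T M Z ∨ Pool.Agent.U222.TT.IsUnrelated T M Z →
      AreSums T (product n A) Z ∧
      (TateConjecture T ((product n A).prod Z) ↔ TateConjecture T Z) :=
  Pool.Agent.U222.TT.main T A m M hM h hE

end Pool.Agent.Results.MP_640417_ag.ExtremeCharacters
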