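import Mathlib
import Pool.Agent.Q29.EP.RowsCT
import Pool.Agent.U191.GT.Main

/-!
# The Tate conjecture for the products of an arbitrary variety with the abelian varieties with one
half of all slope types (CM types) of every CM field of degree `2 r ^ k`

Let `F₀` be a field finitely generated over `ℚ`, with algebraic closure `k` and Galois group `Γ`. Let
`K i` (`i` in a finite set) be CM fields of degree `2 g i` which are pairwise independent: for
`i ≠ k` and all complex embeddings `φ` of `K i` and `ψ` of `K k` some automorphism of `ℂ` is the
identity on `φ (K i)` and the complex conjugation on `ψ (K k)` (this is no condition if there is
only one field). We fix an isomorphism `ν` of the algebraic closure of `ℚ_p` with `ℂ`; it defines a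
`p`-adic valuation of `ℂ`, with the value one at `p`. Let `M i` be a function with integral values
on the complex embeddings of `K i`, invariant under complex conjugation (the weights). A CM type
`Φ i` of `K i` (a choice of one element out of each complex conjugate pair of embeddings), `M i` and
a real number `κ ≠ 0` prescribe the slopes `(a + κ M) / 2` (at the embeddings in `Φ i`) and
`(a - κ M) / 2` (outside of `Φ i`) of a Weil number for `p ^ a` in `K i`.

**The property of the slope types.** For a family of types `Φ i` the property `Q` is the following.
Let `π i` be Weil numbers for `q = p ^ a` that generate the fields `K i` and have the slope types
`Φ i`, `M i` (`HasType`), and let `f i` be monic polynomials whose complex roots are conjugates of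
`π i` (`IsPolyOf`). Let `A` be an abelian variety over `F₀` with good reduction at **one** place of
`F₀` with a finite residue field, with `q ^ s` elements, where the reduction is isogenous to a product
of powers of abelian varieties coming from the field with `q` elements with the characteristic
polynomials `f i`, and such that all divisor classes on the geometric reduction come from `A`. Let
`Z` be **any** smooth projective variety over `F₀` with good reduction at this place, such that the
Frobenius eigenvalues of the reduction are unrelated to the fields `K i` (`UnrelatedTo`: a function
`n` on the complex embeddings of `K i` with `n (conj φ) = - n φ` which is invariant under all
automorphisms of `ℂ` that fix a power of the eigenvalue is zero). Then (`GaloisTimes`), for every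
`ℓ` different from the residue characteristic,

* the Tate conjecture holds for `A` in all degrees;
* all Tate classes on `A × Z` are linear combinations of products of algebraic classes on `A` and of
  Tate classes on `Z`, and **the Tate conjecture for `A × Z` (in all degrees) is equivalent to the
  Tate conjecture for `Z`**;
* the same is true for the generalised Tate classes (killed by a power of `g - χ(g)^j`, for all
  `g` in an open subgroup), that is, for the Tate conjecture together with semisimplicity.

Nothing else is assumed on `Z`.

**The case of complex multiplication.** Let `A` be (isogenous over `k` to) a product of powers of
abelian varieties with complex multiplication by `K i`, with CM types `Φ i`; it has a model with good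
reduction over a number field. Let `p` be a prime number which splits completely in the fields `K i`.
By Shimura and Taniyama the Frobenius of the reduction at a place over `p` has the slopes `a` and `0`
according to the CM types, considered as subsets of the embeddings in `ℂ_p`; this is the case of the
weights `M = 1` (`κ = a`), and the CM types of `K i` correspond to the slope types. If the CM types
are primitive then the Frobenius elements generate the CM fields, the reduction has the same
endomorphism algebra as `A`, and all divisor classes on the reduction come from `A`. So the theorem
applies to one half of all CM types `Φ` of `K` (to a proportion of at least `1 - 1 / r`), and to all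
`Z` with good reduction at **some** place over such a prime number `p`, with unrelated Frobenius
eigenvalues there (for example: a power of each eigenvalue generates a field whose Galois closure has
a totally real intersection with the Galois closures of the `K i`).

**The theorem.** Let `K` be **any CM field of degree `2 g = 2 r ^ k`**, `r` a prime number, of
degree at least `16` if `r = 2`. Nothing is assumed about the Galois group of the normal closure of
`K`, and nothing about the subfields of `K`.

* (`HalfOfAll`) For all weights `M` (odd if `r = 2`; if `r` is odd then `r` may divide some, but not
  all of them) the property `Q` is true for **at least one half of all `2 ^ g` types** of `K`.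
* (`MostWithWeightsOne`) For the weights `M = 1` (for instance for CM types) it is true for
  at least `(1 - 1 / r) 2 ^ g` of the types.
* (`OneOfTwo`) There is a set `B` of embeddings of `K`, stable under complex conjugation, such that
  for **every** type `Φ` it is true for `Φ` or for the symmetric difference of `Φ` and `B`.
* (`SixteenPercent`) There is a number `g₀` such that for every CM field that is **abelian over
  `ℚ`**, of any degree `2 g ≥ 2 g₀`, and all odd weights it is true for at least 16 percent of all
  `2 ^ g` types; again nothing is assumed on the subfields.

All this is proved more generally for finitely many pairwise independent fields `K i`; the
proportions are then multiplied.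

**The formal setting.** `W` is the `ℓ`-adic cohomology of the varieties over `k`, with coefficients in an
algebraic closure of `ℚ_ℓ`, `Γ` the Galois group and `χ` a character such that `g c = χ (g) ^ j c` for
`c` in `H^(2j)` says that `c` is invariant in `H^(2j)(j)`; `γ` is the (geometric) Frobenius element of
the place. The hypotheses on `A` are collected in `HasFrobenius`.

**New and old.** The theorem that one half of all types have no multiplicative relations is from the
library of the starting files (`Pool.Agent.Q29.EP`, over finite fields, written for the conjecture of
Parshin, MP_de59b4_ag). New is the application to fields of characteristic zero, to Tate classes and
generalised Tate classes on `A × Z` with arbitrary unrelated `Z` (`Pool/Agent/U191/GT`). Proof: some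
power `γ ^ N` is in the open subgroup. A (generalised) eigenvector of `γ ^ N` on `A × Z` is a sum of
products of monomials in eigenvectors of `γ` in `H^1(A)` with generalised eigenvectors on `Z`; by
the absence of relations the factors of the monomials can be grouped into pairs with eigenvalue
`q ^ s`, which are divisor classes. So the class is a combination of algebraic classes on `A` with
coefficients in `H(Z)`, and these coefficients, computed with a dual basis of algebraic classes, are
Tate classes on `Z`.
-/

set_option autoImplicit false

namespace Pool.Agent.Results.MP_640417_ag.HalfOfAllTypes

open NumberField Module Pool.Agent.H204R3.CM Pool.Agent.H977R3.CM Pool.Agent.Y1.KN
  Pool.Agent.Y1.CT Pool.Agent.Q29.EP Pool.Agent.U191.GT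

open Pool.Agent.Q29.DP (of_unrelated)

/-- The property of the slope types `Φ i` with the weights `M i`. -/
def Q : TypeProperty := fun _ _ ν _ _ K _ _ _ M Φ => ForAllTypes ν K M (GaloisTimes K) Φ

/-- **The Tate conjecture for `A × Z` over finitely generated fields of characteristic zero, for the
abelian varieties `A` with one half of all slope types (CM types) of every CM field of degree
`2 r ^ k`, and all unrelated varieties `Z`.** -/
theorem result : HalfOfAll Q ∧ MostWithWeightsOne Q ∧ OneOfTwo Q ∧ SixteenPercent Q := by
  have h : WithoutRelations Q := of_unrelated (P := fun _ K _ => GaloisTimes K)
    fun _ _ _ _ _ _ hQ hR => galoisTimes hQ hR
  exact ⟨halfOfAll h, mostWithWeightsOne h, oneOfTwo h, sixteenPercent h⟩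

end Pool.Agent.Results.MP_640417_ag.HalfOfAllTypes
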