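import Pool.Agent.U188.AvgTate

/-!
# Tate classes on finite quotients of abelian varieties with simple factors of mixed types: small
# dimension, odd relative dimension, quadratic multiplication, and complex multiplication in blocks

Let `X` be an abelian variety over the algebraic closure of a field finitely generated over `ℚ`
(embedded in `ℂ`), of any dimension, each of whose simple factors `Y` over `ℂ` (`IsFactor`: the
simple abelian varieties with a homomorphism `Y → X` with finite kernel) satisfies one of the
following conditions. The types may be mixed in any way, with any multiplicities.

* The dimension of `Y` is at most three.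
* `RealOdd Y`: the endomorphism algebra is of Albert type I or II (`ℚ[a]` is a totally real maximal
  subfield), and the relative dimension is odd or at most three. The dimension is unbounded; an
  example is any `Y` of odd dimension with endomorphism ring `ℤ`.
* `QuadMult Y`: the endomorphism algebra is an imaginary quadratic field, and the two multiplicities
  of its action on the tangent space are at most three; if the dimension is six (so that both are
  three) then the discriminant is trivial.
* `HasCMult Y`: `Y` has complex multiplication. The dimension is unbounded.

There is one condition on the complex multiplication. Let `C` be a product of abelian varieties of CM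
type such that each simple factor of `X` with complex multiplication is isogenous to a factor of `C`
(`h1`), and also each elliptic curve with complex multiplication by an imaginary quadratic field
which acts on some simple factor `Y` of `X` without complex multiplication with two different
multiplicities on the tangent space (`h2`). The factors of `C` are divided into independent blocks
(`IndependentBlocks`: for each block some automorphism of `ℂ` conjugates the CM fields of the block
and fixes those of the other blocks), and each block is of one of these kinds (`GoodBlock`):

* the factors of the block have dimension at most three, and any two of them whose CM fields have the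
  same Galois closure over `ℚ` have isomorphic CM types, unless these CM fields are Galois over `ℚ`;
* they are factors of one abelian variety of CM type of dimension at most five;
* they have the same CM type, with a CM field of degree at most fourteen;
* they are factors of one nondegenerate abelian variety of CM type, of arbitrary dimension.

If there is only one block then nothing else is required of it.

Let moreover `G` be a finite group of automorphisms of the variety `X`, given by its action on
`H_1(X, ℚ)` (`G` is a finite subgroup of the linear automorphisms of `H_1(X, ℚ)` which come from
homomorphisms, `IsHom`; translations act trivially), for instance the trivial group. The cohomology of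
the quotient variety `X / G` is the `G`-invariant part of the cohomology of `X`. If a group acts freely
on the variety `X`, then `X / G` is smooth and in general not an abelian variety (hyperelliptic
varieties).

Theorem. All `G`-invariant `ℓ`-adic Tate classes on `X`, in all degrees, are `ℚ_ℓ`-linear combinations
of `G`-invariant classes which belong to the system `Alg`. This is the smallest system of cohomology classes on complex
abelian varieties that contains the classes of degree zero, the Hodge classes of degree two, and the
Weil classes of imaginary quadratic fields on abelian fourfolds and on abelian sixfolds with trivial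
discriminant, and that is stable under linear combinations, cup products, pull-backs along
homomorphisms, and push-forwards along the projections of products of abelian varieties. All the
classes in `Alg` are algebraic, by the theorem of Lefschetz and by the theorems of Markman on Weil
classes; so the Tate conjecture holds for `X` and for `X / G`, at every prime `ℓ`. There are exotic Tate classes
on these varieties (the Weil classes, and others on products of factors of different types).

The starting results on the Tate conjecture in characteristic zero treat separately products of
abelian varieties of dimension at most three whose factors with complex multiplication are elliptic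
curves, and products of varieties of CM type in independent blocks. Here both are combined with each
other, without a condition on the relation between the two parts except `h2`, and with the
factors of odd relative dimension and with quadratic multiplication, and for finite quotients.

In the Lean statement `X : AV` is the complex abelian variety with `H_1(X, ℚ) = X.H` and the period
map `X.per`, `E` is a polarization, `ρ` the representation of the Galois group `Γ` on the Tate module
`ℚ_ℓ ⊗ H_1(X, ℚ)`, with the known properties of the Tate module (`IsTateModule`: the Weil pairing, the
theorems of Faltings, the Hodge-Tate decomposition, and the theorem of Serre and Sen that the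
Hodge-Tate elements generate the Lie algebra), `χ` is the cyclotomic character, and `ℂ` is identified
with an algebraic closure of `ℚ_ℓ`. A Tate class of degree `2 m` is an alternating form `φ` in `2 m`
variables on the Tate module on which a subgroup of finite index of `Γ` acts through `χ ^ m`; it is
invariant under `G` if `φ (g v) = φ (v)` for the vectors of `H_1(X, ℚ)`.

The case of the trivial group is the library theorem `Pool.Agent.N183.TS.tate_all`
(`Pool/Agent/N183/TS/Main.lean`), which no starting hand-in states; the quotients are new
(`Pool/Agent/U188/AvgTate.lean`, averages over `G`).
-/

namespace Pool.Agent.Results.MP_640417_ag.MixedFactorQuotients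

open Module Pool.Agent.Y90 Pool.Agent.R915 Pool.Agent.W547.KB Pool.Agent.W547.UB
  Pool.Agent.N183.TS TensorProduct
open Pool.Agent.Y224.TS.St (IsTateModule)

/-- the condition on the simple factors -/
def MixedTypes (X : AV) : Prop :=
  ∀ Y, IsFactor Y X → finrank ℚ Y.H ≤ 6 ∨ HasCMult Y ∨ QuadMult Y ∨ RealOdd Y

/-- the conditions `h1` and `h2`: the factors of `C` include, up to isogeny, the simple factors of `X`
with complex multiplication, and the elliptic curves with multiplication by an imaginary quadratic field
which acts on another simple factor of `X` with two different multiplicities -/
def CollectsCM (C : CMAV) (X : AV) : Prop :=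
  (∀ Y, IsFactor Y X → HasCMult Y → ∃ i, IsOfType Y (C.factor i)) ∧
  ∀ (Y E : AV) (d : ℚ), IsFactor Y X → ¬ HasCMult Y → Unbalanced Y d →
    finrank ℚ E.H = 2 → Unbalanced E d → ∃ i, IsOfType E (C.factor i)

/-- the alternating forms on the Tate module: the `ℓ`-adic cohomology classes of degree `|κ|` -/
abbrev AdicClass (X : AV) (ℓ : ℕ) [Fact ℓ.Prime] (κ : Type) : Type :=
  (ℚ_[ℓ] ⊗[ℚ] X.H) [⋀^κ]→ₗ[ℚ_[ℓ]] ℚ_[ℓ]

section

variable {X : AV} {ℓ : ℕ} [Fact ℓ.Prime] {κ : Type}

/-- `φ` is a Tate class of degree `2 m`: a subgroup of finite index acts through `χ ^ m` -/
def IsTateClass {Γ : Type} [Group Γ] (ρ : Representation ℚ_[ℓ] Γ (ℚ_[ℓ] ⊗[ℚ] X.H))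
    (χ : Γ →* ℚ_[ℓ]) (m : ℕ) (φ : AdicClass X ℓ κ) : Prop :=
  ∃ Δ : Subgroup Γ, Δ.FiniteIndex ∧ ∀ g ∈ Δ, ∀ v : κ → ℚ_[ℓ] ⊗[ℚ] X.H,
    φ (fun k => ρ g (v k)) = χ g ^ m * φ v

/-- the value of an `ℓ-adic` class on rational vectors -/
noncomputable def onRational (φ : AdicClass X ℓ κ) (v : κ → X.H) : ℚ_[ℓ] :=
  φ fun k => (1 : ℚ_[ℓ]) ⊗ₜ[ℚ] v k

/-- `φ` is invariant under `G` -/
def IsInvariant (G : Subgroup (X.H ≃ₗ[ℚ] X.H)) (φ : AdicClass X ℓ κ) : Prop :=
  ∀ g ∈ G, ∀ v : κ → X.H, onRational φ (fun k => g (v k)) = onRational φ v

/-- `φ` is a linear combination of classes in `Alg` which are invariant under `G` -/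
def IsInvariantAlgebraic (G : Subgroup (X.H ≃ₗ[ℚ] X.H)) (φ : AdicClass X ℓ κ) : Prop :=
  ∃ (n : ℕ) (c : Fin n → ℚ_[ℓ]) (f : Fin n → (X.H [⋀^κ]→ₗ[ℚ] ℚ)),
    (∀ j, Alg X κ (f j)) ∧ (∀ j, ∀ g ∈ G, ∀ v : κ → X.H, f j (fun k => g (v k)) = f j v) ∧
      ∀ v : κ → X.H, onRational φ v = ∑ j, c j * ((f j v : ℚ) : ℚ_[ℓ])

end

/-- **Tate classes on finite quotients of abelian varieties with simple factors of mixed types.** -/
theorem result (X : AV) (hX : MixedTypes X)
    (C : CMAV) {J : Type} (b : C.I → J) (hC : IndependentBlocks C b) (h12 : CollectsCM C X)
    (E : X.H → X.H → ℚ) (hE : Pool.Agent.Y90.St.IsPolarization X.per E)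
    (ℓ : ℕ) [Fact ℓ.Prime] [Algebra ℚ_[ℓ] ℂ] [Algebra.IsAlgebraic ℚ_[ℓ] ℂ]
    {Γ : Type} [Group Γ] (ρ : Representation ℚ_[ℓ] Γ (ℚ_[ℓ] ⊗[ℚ] X.H)) (χ : Γ →* ℚ_[ℓ])
    (hρ : IsTateModule X.per E ρ χ)
    (G : Subgroup (X.H ≃ₗ[ℚ] X.H)) [Finite G] (hG : ∀ g ∈ G, IsHom X X (g : X.H →ₗ[ℚ] X.H))
    {κ : Type} [Finite κ] {m : ℕ} (hκ : Nat.card κ = 2 * m) (φ : AdicClass X ℓ κ)
    (hφ : IsTateClass ρ χ m φ) (hinv : IsInvariant G φ) : IsInvariantAlgebraic G φ :=
  Pool.Agent.U188.AvgTate.tate_inv algSys X hX C b hC h12.1 h12.2 hE hρ G hG hκ φ hφ hinv

end Pool.Agent.Results.MP_640417_ag.MixedFactorQuotients
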