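import Pool.Agent.U173.PQ.Main

/-!
# The Tate conjecture for a product is equivalent to the Tate conjecture for the factors

Let `F` be a field finitely generated over `ℚ` (the theorem holds for all finitely generated fields), `Γ`
its Galois group, `k` an algebraic closure, `W` the `ℓ`-adic cohomology of varieties over `k` with
coefficients in an algebraic closure of `ℚ_ℓ`, and `χ` the inverse of the cyclotomic character: a class
`c ∈ H^(2n)` is a Tate class if `g c = χ(g)^n c` for all `g` in an open subgroup (`IsTateAct`). The theorem
is proved for an abstract Weil cohomology theory and an abstract group with the formal properties of
a Galois action (`IsGaloisVar`).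

A *place* `v` (a closed point of an arithmetic model of `F`) is given by a Frobenius element `σ_v ∈ Γ` with
residue field of `p ^ m` elements and an embedding of `ℚ̄` in an algebraic closure of `ℚ_p`. A field
`L ⊆ ℚ̄` is a *slope field* of an algebraic number `a` if the automorphisms of `ℚ̄` over `L` do not change
the `p`-adic absolute values of the conjugates of `a`.

Let `X_i` be **arbitrary** smooth projective varieties over `F`; **no case of the Tate conjecture is
assumed for them**. Let `H(X_i)` be the direct sum of the span of the Tate classes and a subspace `T_i`
stable under `Γ` (this exists if `H(X_i)` is a semisimple representation, as expected for all varieties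
and known for example for products of abelian varieties and K3 surfaces and all varieties dominated by
them). Let `P_i` be a set of places such that no nonzero subspace of `T_i` stable under an open
subgroup is supersingular at all places in `P_i`, that is, some power of some `σ_v`, `v ∈ P_i`, has an
eigenvalue on the subspace which is not a power of `p` up to a root of unity. (For semisimple `H(X_i)`
there is always a finite set `P_i` with this property, since a semisimple representation in the
cohomology of a variety for which almost all Frobenius elements have only such eigenvalues is a sum of
Tate twists over a finite extension, by the theorem of Chebotarev.) Let the eigenvalues of `σ_v` on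
`T_i`, `v ∈ P_i`, be Weil numbers with slope field `L_i(v)`.

Let `Y_j` and `Z` be arbitrary smooth projective varieties over `F`. Suppose (`IsProductSystem`) that, for
`v ∈ P_i`, the slope fields at `v` of each of the `X_j`, `j` behind `i`, of each of the `Y_j` and of `Z`,
separately for each of these varieties, meet `L_i(v)` in a totally real field (after the adjunction of
a totally real field `E_i(v)` over which `L_i(v)` is normal; for CM fields this is no condition).

**Theorem.** Let `B = ∏ Y_j × Z` and `V = ∏ X_i × B`.
1. **The Tate conjecture holds for `V` if and only if it holds for all `X_i` and for `B`** (cycles of all
   codimensions, over all finite extensions of `F`).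
2. For the product `V'` of the factors behind `i`: the Tate classes on `X_i × V'` are linear combinations of
   products of Tate classes on `X_i` and Tate classes on `V'`. In particular, if all Tate classes on the
   `X_i` and on `B` are generated by Tate classes of degree two then there are no exotic Tate classes on
   `V`.

(That the Tate classes of products are in general not of this form is the main difficulty of the
conjecture, for instance for `X × X`.)

Proof. As in `MP_938ce2_ag.PotentialTateClasses` the contractions of a Tate class on `X_i × V'` with
the linear forms on `H(V')`, projected to `T_i`, vanish, because of the separation of the slopes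
(`U173/OP/Star`). So the class lies in the tensor product of the span of the Tate classes on `X_i` with
`H(V')`. In terms of a basis which consists of Tate classes on `X_i` the coefficients are Tate classes
on `V'`. For the converse multiply with a zero-cycle and push forward.

Compared with `MP_938ce2_ag.PotentialTateClasses` of mine the `X_i` need not satisfy the Tate conjecture:
the span of the classes of algebraic cycles is replaced by the span of the Tate classes.
-/

set_option autoImplicit false

open CategoryTheory AlgebraicGeometry

universe u

namespace Pool.Agent.Results.MP_640417_ag.ProductAndFactors

open Pool.Agent.H914 Pool.Agent.H914.VarClass Pool.Agent.H914.VarClass.Obj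
  Pool.Agent.H914.WeilCohomology Pool.Agent.H281R3.HT Pool.Agent.TH125.Gal Pool.Agent.U173.PT
  Pool.Agent.U173.PQ

/-- **The Tate conjecture for a product of arbitrary varieties with separated slope fields is
equivalent to the Tate conjecture for the factors.** -/
theorem result {k : Type u} [Field k] {𝒱 : VarClass k} {ops : CycleOps 𝒱}
    (W : WeilCohomology.{u, 0} ops) [IsAlgClosed W.K] {Γ : Type} [Group Γ] (χ : Γ →* W.Kˣ)
    {I I' : Type} (P : I → Set (Place Γ))
    (E L : I → Place Γ → IntermediateField ℚ (AlgebraicClosure ℚ)) (X : I → GVar W Γ)
    (Y : I' → GVar W Γ) (Z : GVar W Γ) (l : List I) (l' : List I')
    (h : IsProductSystem χ P E L X Y Z l l') (B V : GVar W Γ) (hB : IsProductOf Y Z l' B)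
    (hV : IsProductOf X B l V) :
    (TateConjecture χ V ↔ (∀ i ∈ l, TateConjecture χ (X i)) ∧ TateConjecture χ B) ∧
    ∀ (i : I) (l₁ : List I) (B' : GVar W Γ), l = i :: l₁ → IsProductOf X B l₁ B' →
      AreProducts χ (X i) B' := by
  refine ⟨h.tate hB hV, fun i l₁ B' hl hB' => ?_⟩
  subst hl
  exact h.areProducts hB hB'

end Pool.Agent.Results.MP_640417_ag.ProductAndFactors
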